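import Pool.Agent.W313.HB.Stm6
import Pool.Agent.W681.HB.RatioG

/-! Project HB, part FULLW: algebra and topology. -/

set_option autoImplicit false
set_option linter.all false

namespace Pool.Agent.W881.HB

open Finset Polynomial
open Pool.Agent.W313.BMX (Splits)
open Pool.Agent.W313.HB
open Pool.Agent.W236.HB (sqf_part aeval_cast)
open Pool.Agent.W681.HB (aevalD ne_of_sq)

/-! ### Conics -/

theorem unit_pt {K : Type} [Field K] [CharZero K] {c Δ : K} (hc : c ≠ 0) (hD : Δ ≠ 0)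
    (h : Splits c Δ) : ∃ y z : K, z ^ 2 - Δ * y ^ 2 = c := by
  obtain ⟨x1, y1, z1, h0, h1⟩ := h
  by_cases hx : x1 = 0
  · rw [hx] at h1
    have hy : y1 ≠ 0 := by
      intro hy
      rw [hy] at h1
      have : z1 ^ 2 = 0 := by rw [h1]; ring
      have hz : z1 = 0 := by simpa using this
      rcases h0 with h | h | h
      · exact h hx
      · exact h hy
      · exact h hz
    have hz : z1 ≠ 0 := by
      intro hz
      rw [hz] at h1
      have : Δ * y1 ^ 2 = 0 := by linear_combination -h1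
      rcases mul_eq_zero.1 this with h | h
      · exact hD h
      · exact absurd h (pow_ne_zero 2 hy)
    refine ⟨(c - 1) / (2 * (z1 / y1)), (c + 1) / 2, ?_⟩
    have hΔ : Δ = (z1 / y1) ^ 2 := by
      rw [div_pow, eq_div_iff (pow_ne_zero 2 hy)]
      linear_combination -h1
    have hne : z1 / y1 ≠ 0 := div_ne_zero hz hy
    rw [hΔ]
    field_simp
    ring
  · refine ⟨y1 / x1, z1 / x1, ?_⟩
    field_simp
    linear_combination h1

theorem vals_of_splits {K : Type} [Field K] [CharZero K] {a α β δ Δ : K} (ha : a ≠ 0)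
    (hα : α ≠ 0) (hΔ : Δ ≠ 0) (hD : Δ = β ^ 2 - α * (4 * δ)) (h : Splits (a * α) Δ) :
    ∃ u v w : K, w ≠ 0 ∧ w ^ 2 = a * (α * u ^ 2 + β * (u * v) + δ * v ^ 2) := by
  obtain ⟨y, z, hyz⟩ := unit_pt (mul_ne_zero ha hα) hΔ h
  have h2 : (2 : K) ≠ 0 := two_ne_zero
  refine ⟨(z - β * y) / (2 * α), y, a / 2, div_ne_zero ha h2, ?_⟩
  rw [hD] at hyz
  field_simp
  linear_combination -hyz

theorem splits_of_vals {K : Type} [Field K] [CharZero K] {a α β δ Δ u v w : K} (ha : a ≠ 0)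
    (hD : Δ = β ^ 2 - α * (4 * δ)) (hw : w ≠ 0)
    (h : w ^ 2 = a * (α * u ^ 2 + β * (u * v) + δ * v ^ 2)) : Splits (a * α) Δ := by
  have h2 : (2 : K) ≠ 0 := two_ne_zero
  refine ⟨2 * w / a, v, 2 * α * u + β * v, Or.inl (div_ne_zero (mul_ne_zero h2 hw) ha), ?_⟩
  rw [hD]
  field_simp
  linear_combination (-4 * α) * h

/-! ### The parametrization -/

variable {K : Type} [Field K]

def XX (Δ : K) (q : Fin 3 → K) : K := q 2 * (q 0 ^ 2 - Δ * q 1 ^ 2)

def YY (Δ y z : K) (q : Fin 3 → K) : K :=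
  q 2 * (y * (q 0 ^ 2 + Δ * q 1 ^ 2) + 2 * z * (q 0 * q 1))

def ZZ (Δ y z : K) (q : Fin 3 → K) : K :=
  q 2 * (z * (q 0 ^ 2 + Δ * q 1 ^ 2) + 2 * Δ * y * (q 0 * q 1))

def uv (α β Δ y z : K) (q : Fin 3 → K) : Fin 2 → K :=
  ![(ZZ Δ y z q - β * YY Δ y z q) / (2 * α), YY Δ y z q]

theorem conic_id {c Δ y z : K} (h : z ^ 2 - Δ * y ^ 2 = c) (q : Fin 3 → K) :
    ZZ Δ y z q ^ 2 - Δ * YY Δ y z q ^ 2 = c * XX Δ q ^ 2 := by
  rw [← h]
  unfold ZZ YY XX
  ring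

theorem form_id [CharZero K] {a α β δ Δ y z : K} (ha : a ≠ 0) (hα : α ≠ 0)
    (hD : Δ = β ^ 2 - α * (4 * δ)) (h : z ^ 2 - Δ * y ^ 2 = a * α) (q : Fin 3 → K) :
    (a * XX Δ q / 2) ^ 2 = a * (α * uv α β Δ y z q 0 ^ 2 +
      β * (uv α β Δ y z q 0 * uv α β Δ y z q 1) + δ * uv α β Δ y z q 1 ^ 2) := by
  have h2 : (2 : K) ≠ 0 := two_ne_zero
  have h1 := conic_id h q
  have e0 : uv α β Δ y z q 0 = (ZZ Δ y z q - β * YY Δ y z q) / (2 * α) := rfl
  have e1 : uv α β Δ y z q 1 = YY Δ y z q := rfl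
  rw [e0, e1]
  set X := XX Δ q
  set Y := YY Δ y z q
  set Z := ZZ Δ y z q
  have h3 : 4 * α * (α * ((Z - β * Y) / (2 * α)) ^ 2 + β * ((Z - β * Y) / (2 * α) * Y) +
      δ * Y ^ 2) = a * α * X ^ 2 := by
    rw [← h1, hD]
    field_simp
    ring
  have h4 : (4 * α) ≠ 0 := mul_ne_zero (by norm_num) hα
  apply mul_left_cancel₀ h4
  linear_combination (-a) * h3

theorem surj [CharZero K] {a α β δ Δ y z : K} (ha : a ≠ 0) (hα : α ≠ 0) (hΔ : Δ ≠ 0)
    (hD : Δ = β ^ 2 - α * (4 * δ)) (h : z ^ 2 - Δ * y ^ 2 = a * α) (r : Fin 2 → K) (w : K)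
    (hw : w ≠ 0) (hr : w ^ 2 = a * (α * r 0 ^ 2 + β * (r 0 * r 1) + δ * r 1 ^ 2)) :
    ∃ q : Fin 3 → K, uv α β Δ y z q = r ∧ XX Δ q ≠ 0 := by
  have h2 : (2 : K) ≠ 0 := two_ne_zero
  have hc : a * α ≠ 0 := mul_ne_zero ha hα
  obtain ⟨X, hX⟩ : ∃ X : K, X = 2 * w / a := ⟨_, rfl⟩
  obtain ⟨Y, hY⟩ : ∃ Y : K, Y = r 1 := ⟨_, rfl⟩
  obtain ⟨Z, hZ⟩ : ∃ Z : K, Z = 2 * α * r 0 + β * r 1 := ⟨_, rfl⟩
  have hX0 : X ≠ 0 := by rw [hX]; exact div_ne_zero (mul_ne_zero h2 hw) ha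
  have hcone : Z ^ 2 - Δ * Y ^ 2 = (a * α) * X ^ 2 := by
    rw [hX, hY, hZ, hD]
    field_simp
    linear_combination (-4 * α) * hr
  obtain ⟨g, hg⟩ : ∃ g : K, g = (Z * z - Δ * Y * y) / (a * α) := ⟨_, rfl⟩
  obtain ⟨k, hk⟩ : ∃ k : K, k = (Y * z - Z * y) / (a * α) := ⟨_, rfl⟩
  have e1 : y * g + z * k = Y := by
    rw [hg, hk]
    field_simp
    linear_combination Y * h
  have e2 : z * g + Δ * y * k = Z := by
    rw [hg, hk]
    field_simp
    linear_combination Z * h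
  have e3 : g ^ 2 - Δ * k ^ 2 = X ^ 2 := by
    apply mul_left_cancel₀ hc
    rw [← hcone, ← h, ← e1, ← e2]
    ring
  have hmain : ∃ q : Fin 3 → K, q 2 * (q 0 ^ 2 - Δ * q 1 ^ 2) = X ∧
      q 2 * (q 0 ^ 2 + Δ * q 1 ^ 2) = g ∧ 2 * q 2 * (q 0 * q 1) = k := by
    by_cases hgX : g + X = 0
    · have hgX' : g = -X := by linear_combination hgX
      have hk0 : k = 0 := by
        rw [hgX'] at e3
        have : Δ * k ^ 2 = 0 := by linear_combination -e3
        rcases mul_eq_zero.1 this with h | h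
        · exact absurd h hΔ
        · simpa using h
      refine ⟨![0, 1, -X / Δ], ?_, ?_, ?_⟩
      · simp; field_simp
      · simp; rw [hgX']; field_simp
      · simp [hk0]
    · refine ⟨![1, k / (g + X), (g + X) / 2], ?_, ?_, ?_⟩
      · simp
        field_simp
        linear_combination e3
      · simp
        field_simp
        linear_combination -e3
      · simp
        field_simp
  obtain ⟨q, q1, q2, q3⟩ := hmain
  have f1 : YY Δ y z q = r 1 := by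
    unfold YY
    rw [← hY, ← e1, ← q2, ← q3]; ring
  have f2 : ZZ Δ y z q = Z := by
    unfold ZZ
    rw [← e2, ← q2, ← q3]; ring
  refine ⟨q, ?_, ?_⟩
  · unfold uv
    rw [f1, f2, hZ]
    funext i
    fin_cases i
    · simp
      field_simp
      try ring
    · simp
  · unfold XX
    rw [q1]; exact hX0

end Pool.Agent.W881.HB
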