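import Pool.Agent.W313.HB.Stm6
import Pool.Agent.W881.HB.FullA

/-! Project HB, part FULLW: topology. -/

set_option autoImplicit false
set_option linter.all false

namespace Pool.Agent.W881.HB

open Finset Polynomial
open Pool.Agent.W313.BMX (Splits)
open Pool.Agent.W313.HB
open Pool.Agent.W236.HB (sqf_part aeval_cast)
open Pool.Agent.W681.HB (aevalD ne_of_sq)

theorem isOpen_sq {K : Type} [NontriviallyNormedField K] [CompleteSpace K] [CharZero K] :
    IsOpen {t : K | ∃ w : K, w ≠ 0 ∧ w ^ 2 = t} := by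
  rw [isOpen_iff_mem_nhds]
  rintro t ⟨w, hw, rfl⟩
  have h1 : HasStrictDerivAt (fun x : K => x ^ 2) (2 * w) w := by
    simpa using hasStrictDerivAt_pow 2 w
  have h2 := h1.map_nhds_eq (mul_ne_zero two_ne_zero hw)
  rw [← h2, Filter.mem_map]
  filter_upwards [isOpen_ne.mem_nhds hw] with x hx
  exact ⟨x, hx, rfl⟩

theorem cont_aeval {n : ℕ} {K : Type} [Field K] [TopologicalSpace K] [IsTopologicalRing K]
    (A : MvPolynomial (Fin n) ℤ) : Continuous (fun x : Fin n → K => MvPolynomial.aeval x A) := by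
  have : (fun x : Fin n → K => MvPolynomial.aeval x A) =
      fun x => MvPolynomial.eval x (MvPolynomial.map (Int.castRingHom K) A) := by
    funext x
    rw [MvPolynomial.eval_map, MvPolynomial.aeval_def, algebraMap_int_eq]
  rw [this]
  exact MvPolynomial.continuous_eval _

noncomputable def Fv {n : ℕ} (A B D : MvPolynomial (Fin (n + 1)) ℤ) {K : Type} [Field K]
    (x : (Fin (n + 1) → K) × (Fin 2 → K)) : K :=
  MvPolynomial.aeval x.1 A * x.2 0 ^ 2 + MvPolynomial.aeval x.1 B * (x.2 0 * x.2 1) +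
    MvPolynomial.aeval x.1 D * x.2 1 ^ 2

theorem cont_Fv {n : ℕ} (A B D : MvPolynomial (Fin (n + 1)) ℤ) {K : Type} [Field K]
    [TopologicalSpace K] [IsTopologicalRing K] :
    Continuous (fun x : (Fin (n + 1) → K) × (Fin 2 → K) => Fv A B D x) := by
  unfold Fv
  have hA := (cont_aeval (K := K) A).comp
    (continuous_fst : Continuous (fun x : (Fin (n + 1) → K) × (Fin 2 → K) => x.1))
  have hB := (cont_aeval (K := K) B).comp
    (continuous_fst : Continuous (fun x : (Fin (n + 1) → K) × (Fin 2 → K) => x.1))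
  have hD := (cont_aeval (K := K) D).comp
    (continuous_fst : Continuous (fun x : (Fin (n + 1) → K) × (Fin 2 → K) => x.1))
  have h0 : Continuous (fun x : (Fin (n + 1) → K) × (Fin 2 → K) => x.2 0) :=
    (continuous_apply 0).comp continuous_snd
  have h1 : Continuous (fun x : (Fin (n + 1) → K) × (Fin 2 → K) => x.2 1) :=
    (continuous_apply 1).comp continuous_snd
  exact ((hA.mul (h0.pow 2)).add (hB.mul (h0.mul h1))).add (hD.mul (h1.pow 2))

/-- The points of `Ω` where `a F` is a nonzero square. -/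
def Um {n : ℕ} (A B D : MvPolynomial (Fin (n + 1)) ℤ) {K : Type} [Field K] (a : K)
    (Ω : Set ((Fin (n + 1) → K) × (Fin 2 → K))) : Set ((Fin (n + 1) → K) × (Fin 2 → K)) :=
  {y | y ∈ Ω ∧ ∃ w : K, w ≠ 0 ∧ w ^ 2 = a * Fv A B D y}

theorem isOpen_Um {n : ℕ} (A B D : MvPolynomial (Fin (n + 1)) ℤ) {K : Type}
    [NontriviallyNormedField K] [CompleteSpace K] [CharZero K] (a : K)
    (Ω : Set ((Fin (n + 1) → K) × (Fin 2 → K))) (hΩ : IsOpen Ω) : IsOpen (Um A B D a Ω) :=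
  hΩ.inter ((isOpen_sq (K := K)).preimage (continuous_const.mul (cont_Fv A B D)))

/-- The points over which `a F` is a nonzero square somewhere on the fibre of `Ω`. -/
def Om {n : ℕ} (A B D : MvPolynomial (Fin (n + 1)) ℤ) {K : Type} [Field K] (a : K)
    (Ω : Set ((Fin (n + 1) → K) × (Fin 2 → K))) : Set (Fin (n + 1) → K) :=
  {x | MvPolynomial.aeval x A ≠ 0 ∧ MvPolynomial.aeval x (B ^ 2 - A * (4 * D)) ≠ 0 ∧
    ∃ y : Fin 2 → K, (x, y) ∈ Um A B D a Ω}

theorem proj_open {n : ℕ} {K : Type} [TopologicalSpace K]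
    (U : Set ((Fin (n + 1) → K) × (Fin 2 → K))) (hU : IsOpen U) :
    IsOpen {x : Fin (n + 1) → K | ∃ y : Fin 2 → K, (x, y) ∈ U} := by
  have h := isOpenMap_fst U hU
  convert h using 1
  ext x
  constructor
  · rintro ⟨y, hy⟩
    exact ⟨(x, y), hy, rfl⟩
  · rintro ⟨⟨x1, y1⟩, hy, rfl⟩
    exact ⟨y1, hy⟩

theorem isOpen_Om {n : ℕ} (A B D : MvPolynomial (Fin (n + 1)) ℤ) {K : Type}
    [NontriviallyNormedField K] [CompleteSpace K] [CharZero K] (a : K)
    (Ω : Set ((Fin (n + 1) → K) × (Fin 2 → K))) (hΩ : IsOpen Ω) : IsOpen (Om A B D a Ω) := by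
  have h1 : IsOpen {x : Fin (n + 1) → K | MvPolynomial.aeval x A ≠ 0} :=
    isOpen_ne.preimage (cont_aeval A)
  have h2 : IsOpen {x : Fin (n + 1) → K | MvPolynomial.aeval x (B ^ 2 - A * (4 * D)) ≠ 0} :=
    isOpen_ne.preimage (cont_aeval _)
  exact h1.inter (h2.inter (proj_open _ (isOpen_Um A B D a Ω hΩ)))

theorem nonvanish {n : ℕ} {K : Type} [NontriviallyNormedField K] [CharZero K]
    (P : MvPolynomial (Fin (n + 1)) ℤ) (hP : P ≠ 0) (V : Set (Fin (n + 1) → K)) (hV : IsOpen V)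
    (hne : V.Nonempty) : ∃ x ∈ V, MvPolynomial.aeval x P ≠ 0 := by
  by_contra hcon
  push Not at hcon
  obtain ⟨x, hx⟩ := hne
  obtain ⟨u, hu, huV⟩ := isOpen_pi_iff'.1 hV x hx
  have h1 : MvPolynomial.map (Int.castRingHom K) P = 0 := by
    apply MvPolynomial.funext_set (fun i => u i)
    · intro i
      exact infinite_of_mem_nhds (x i) ((hu i).1.mem_nhds (hu i).2)
    · intro y hy
      rw [map_zero, MvPolynomial.eval_map, ← algebraMap_int_eq, ← MvPolynomial.aeval_def]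
      exact hcon y (huV hy)
  have h2 : Function.Injective (MvPolynomial.map (σ := Fin (n + 1)) (Int.castRingHom K)) :=
    MvPolynomial.map_injective _ (RingHom.injective_int _)
  exact hP (h2 (by rw [h1, map_zero]))

theorem perturb {n : ℕ} (A B D : MvPolynomial (Fin (n + 1)) ℤ) (hA : A ≠ 0)
    (hD : B ^ 2 - A * (4 * D) ≠ 0) {K : Type}
    [NontriviallyNormedField K] [CompleteSpace K] [CharZero K] (a : K)
    (Ω : Set ((Fin (n + 1) → K) × (Fin 2 → K))) (hΩ : IsOpen Ω)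
    (h : (Um A B D a Ω).Nonempty) : (Om A B D a Ω).Nonempty := by
  obtain ⟨⟨x, y⟩, hxy⟩ := h
  obtain ⟨x', ⟨y', hxy'⟩, hx'⟩ := nonvanish (A * (B ^ 2 - A * (4 * D))) (mul_ne_zero hA hD) _
    (proj_open _ (isOpen_Um A B D a Ω hΩ)) ⟨x, y, hxy⟩
  rw [map_mul] at hx'
  exact ⟨x', left_ne_zero_of_mul hx', right_ne_zero_of_mul hx', y', hxy'⟩

theorem Um_congr {n : ℕ} (A B D : MvPolynomial (Fin (n + 1)) ℤ) {K : Type} [Field K] {a b c : K}
    (hc : c ≠ 0) (h : a = b * c ^ 2) (Ω : Set ((Fin (n + 1) → K) × (Fin 2 → K))) :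
    Um A B D a Ω = Um A B D b Ω := by
  ext y
  constructor
  · rintro ⟨h1, w, hw, h2⟩
    refine ⟨h1, w / c, div_ne_zero hw hc, ?_⟩
    rw [div_pow, h2, h]
    field_simp
  · rintro ⟨h1, w, hw, h2⟩
    refine ⟨h1, w * c, mul_ne_zero hw hc, ?_⟩
    rw [mul_pow, h2, h]
    ring

theorem Om_congr {n : ℕ} (A B D : MvPolynomial (Fin (n + 1)) ℤ) {K : Type} [Field K] {a b c : K}
    (hc : c ≠ 0) (h : a = b * c ^ 2) (Ω : Set ((Fin (n + 1) → K) × (Fin 2 → K))) :
    Om A B D a Ω = Om A B D b Ω := by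
  unfold Om
  rw [Um_congr A B D hc h]

theorem ptf_iff {n : ℕ} (A B D : MvPolynomial (Fin (n + 1)) ℤ) {K : Type} [Field K] (a : ℤ)
    (Ω : Set ((Fin (n + 1) → K) × (Fin 2 → K))) : PtF A B D a Ω ↔ (Um A B D (a : K) Ω).Nonempty := by
  constructor
  · rintro ⟨x, hx, w, hw, h⟩
    exact ⟨x, hx, w, hw, h⟩
  · rintro ⟨x, hx, w, hw, h⟩
    exact ⟨x, hx, w, hw, h⟩

theorem haspw_of_Om {n : ℕ} (A B D : MvPolynomial (Fin (n + 1)) ℤ) {K : Type} [Field K]
    [CharZero K] (a : ℤ) (ha : a ≠ 0) (Ω : Set ((Fin (n + 1) → K) × (Fin 2 → K)))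
    (x : Fin (n + 1) → K) (hx : x ∈ Om A B D (a : K) Ω) :
    Splits ((a : K) * MvPolynomial.aeval x A)
      (((1 : ℤ) : K) * MvPolynomial.aeval x (B ^ 2 - A * (4 * D))) := by
  obtain ⟨h1, h2, y, hy, w, hw, h3⟩ := hx
  have haK : (a : K) ≠ 0 := by exact_mod_cast ha
  rw [Int.cast_one, one_mul]
  refine splits_of_vals haK ?_ hw h3
  simp only [map_sub, map_mul, map_pow, map_ofNat]

theorem ptf_of_haspw {n : ℕ} (A B D : MvPolynomial (Fin (n + 1)) ℤ) {K : Type} [Field K]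
    [CharZero K] (a : ℤ) (ha : a ≠ 0) (h : HasPW A (B ^ 2 - A * (4 * D)) a 1
      (Set.univ : Set (Fin (n + 1) → K))) :
    PtF A B D a (Set.univ : Set ((Fin (n + 1) → K) × (Fin 2 → K))) := by
  obtain ⟨x, -, hA, hB, hs⟩ := h
  have haK : (a : K) ≠ 0 := by exact_mod_cast ha
  rw [Int.cast_one, one_mul] at hs
  obtain ⟨u, v, w, hw, h1⟩ := vals_of_splits (β := MvPolynomial.aeval x B)
    (δ := MvPolynomial.aeval x D) haK hA hB
    (by simp only [map_sub, map_mul, map_pow, map_ofNat]) hs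
  exact ⟨(x, ![u, v]), Set.mem_univ _, w, hw, by simpa using h1⟩

end Pool.Agent.W881.HB
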