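import Pool.Agent.W313.HB.Stm6
import Pool.Agent.W881.HB.FullB

/-! Project HB, part FULLW: approximation and density. -/

set_option autoImplicit false
set_option linter.all false

namespace Pool.Agent.W881.HB

open Finset Polynomial
open Pool.Agent.W313.BMX (Splits)
open Pool.Agent.W313.HB
open Pool.Agent.W236.HB (sqf_part aeval_cast)
open Pool.Agent.W681.HB (aevalD ne_of_sq)

/-! ### Approximation in the product -/

def jm {n : ℕ} {K : Type} (q : Fin (n + 2 + 1) → K) : (Fin (n + 1) → K) × (Fin 2 → K) :=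
  (fun i => q (Fin.castAdd 2 i), fun i => q (Fin.natAdd (n + 1) i))

theorem cont_jm {n : ℕ} {K : Type} [TopologicalSpace K] : Continuous (jm (n := n) (K := K)) := by
  refine Continuous.prodMk ?_ ?_
  · exact continuous_pi (fun i => continuous_apply _)
  · exact continuous_pi (fun i => continuous_apply _)

theorem surj_jm {n : ℕ} {K : Type} : Function.Surjective (jm (n := n) (K := K)) := by
  rintro ⟨x, y⟩
  refine ⟨(Fin.append x y : Fin (n + 1 + 2) → K), ?_⟩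
  unfold jm
  refine Prod.ext ?_ ?_
  · funext i
    exact Fin.append_left x y i
  · funext i
    exact Fin.append_right x y i

theorem xapp2 (hx : S_XAPP) (n : ℕ) (A B D : MvPolynomial (Fin (n + 1)) ℤ) (hA : A ≠ 0)
    (hD : B ^ 2 - A * (4 * D) ≠ 0)
    (Ωr : Set ((Fin (n + 1) → ℝ) × (Fin 2 → ℝ)))
    (Ω : ∀ p : Nat.Primes, Set ((Fin (n + 1) → ℚ_[(p : ℕ)]) × (Fin 2 → ℚ_[(p : ℕ)])))
    (hΩr : IsOpen Ωr) (hΩ : ∀ p, IsOpen (Ω p)) (hfin : {p : Nat.Primes | Ω p ≠ Set.univ}.Finite)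
    (hne : Ωr.Nonempty) (hnep : ∀ p, (Ω p).Nonempty) :
    ∃ x : (Fin (n + 1) → ℚ) × (Fin 2 → ℚ),
      ((fun i => (x.1 i : ℝ)), (fun i => (x.2 i : ℝ))) ∈ Ωr ∧ (∀ p : Nat.Primes,
      ((fun i => (x.1 i : ℚ_[(p : ℕ)])), (fun i => (x.2 i : ℚ_[(p : ℕ)]))) ∈ Ω p) ∧
      MvPolynomial.aeval x.1 A ≠ 0 ∧ MvPolynomial.aeval x.1 (B ^ 2 - A * (4 * D)) ≠ 0 ∧
      Fv A B D x ≠ 0 := by
  set e1 : Fin (n + 1) → Fin (n + 2 + 1) := fun i => Fin.castAdd 2 i with he1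
  set e2 : Fin 2 → Fin (n + 2 + 1) := fun i => Fin.natAdd (n + 1) i with he2
  have hinj : Function.Injective e1 := fun i j h => Fin.castAdd_injective (n + 1) 2 h
  set P : MvPolynomial (Fin (n + 2 + 1)) ℤ := MvPolynomial.rename e1 (A * (B ^ 2 - A * (4 * D)))
    with hP
  set F : MvPolynomial (Fin (n + 2 + 1)) ℤ := MvPolynomial.rename e1 A * MvPolynomial.X (e2 0) ^ 2 +
    MvPolynomial.rename e1 B * (MvPolynomial.X (e2 0) * MvPolynomial.X (e2 1)) +
    MvPolynomial.rename e1 D * MvPolynomial.X (e2 1) ^ 2 with hF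
  have hP0 : P ≠ 0 := by
    intro h0
    have h1 : MvPolynomial.rename e1 (A * (B ^ 2 - A * (4 * D))) = MvPolynomial.rename e1 0 := by
      rw [map_zero]; exact h0
    exact mul_ne_zero hA hD (MvPolynomial.rename_injective e1 hinj h1)
  have hF0 : F ≠ 0 := by
    intro h0
    set g : Fin (n + 1 + 2) → MvPolynomial (Fin (n + 1)) ℤ :=
      Fin.append (fun i => MvPolynomial.X i) ![1, 0] with hg
    have g1 : ∀ i, g (e1 i) = MvPolynomial.X i := fun i => Fin.append_left _ _ i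
    have g20 : g (e2 0) = 1 := Fin.append_right _ _ 0
    have g21 : g (e2 1) = 0 := Fin.append_right _ _ 1
    have h1 : MvPolynomial.aeval (R := ℤ) (fun i : Fin (n + 2 + 1) => g i) F = 0 := by
      rw [h0, map_zero]
    rw [hF] at h1
    simp only [map_add, map_mul, map_pow, MvPolynomial.aeval_X, MvPolynomial.aeval_rename] at h1
    have g1' : ((fun i : Fin (n + 2 + 1) => g i) ∘ e1) = fun i => MvPolynomial.X i := by
      funext i; exact g1 i
    rw [g1', g20, g21] at h1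
    apply hA
    have h2 : MvPolynomial.aeval (fun i => MvPolynomial.X i) A = A :=
      MvPolynomial.aeval_X_left_apply A
    rw [h2] at h1
    simpa using h1
  obtain ⟨q, hq1, hq2, hq3⟩ := hx (n + 2) (P * F) (mul_ne_zero hP0 hF0) (jm ⁻¹' Ωr)
    (fun p => jm ⁻¹' (Ω p)) (hΩr.preimage cont_jm) (fun p => (hΩ p).preimage cont_jm)
    (hfin.subset (fun p hp hcon => hp (by show jm ⁻¹' (Ω p) = Set.univ; rw [hcon]; rfl)))
    (hne.preimage surj_jm) (fun p => (hnep p).preimage surj_jm)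
  rw [map_mul] at hq3
  have h1 := left_ne_zero_of_mul hq3
  have h2 := right_ne_zero_of_mul hq3
  rw [hP, MvPolynomial.aeval_rename, map_mul] at h1
  rw [hF] at h2
  simp only [map_add, map_mul, map_pow, MvPolynomial.aeval_X, MvPolynomial.aeval_rename] at h2
  exact ⟨jm q, hq1, hq2, left_ne_zero_of_mul h1, right_ne_zero_of_mul h1, h2⟩

/-! ### Casting -/

theorem Fv_cast {n : ℕ} {K : Type} [Field K] [CharZero K] (A B D : MvPolynomial (Fin (n + 1)) ℤ)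
    (x : (Fin (n + 1) → ℚ) × (Fin 2 → ℚ)) :
    Fv A B D ((fun i => (x.1 i : K)), (fun i => (x.2 i : K))) = ((Fv A B D x : ℚ) : K) := by
  unfold Fv
  simp only [aeval_cast]
  push_cast
  rfl

theorem ptf_cast {n : ℕ} {K : Type} [Field K] [CharZero K] (A B D : MvPolynomial (Fin (n + 1)) ℤ)
    (a : ℤ) (Ωq : Set ((Fin (n + 1) → ℚ) × (Fin 2 → ℚ)))
    (Ω : Set ((Fin (n + 1) → K) × (Fin 2 → K)))
    (hΩ : ∀ x ∈ Ωq, ((fun i => ((x.1 i : ℚ) : K)), (fun i => ((x.2 i : ℚ) : K))) ∈ Ω)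
    (h : PtF A B D a Ωq) : PtF A B D a Ω := by
  rw [ptf_iff] at h ⊢
  obtain ⟨x, hx, w, hw, h1⟩ := h
  refine ⟨_, hΩ x hx, (w : K), by exact_mod_cast hw, ?_⟩
  rw [Fv_cast]
  exact_mod_cast congrArg (fun t : ℚ => (t : K)) h1

/-! ### Density -/

theorem densityF (hd : S_DONE) (he : S_ELSBG) (hx : S_XAPP) (n α δ : ℕ)
    (A B D : MvPolynomial (Fin (n + 1)) ℤ)
    (hA : A.IsHomogeneous (2 * α)) (hB : B.IsHomogeneous (α + δ)) (hD : D.IsHomogeneous (2 * δ))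
    (hab : 1 ≤ α + δ)
    (hsq : Squarefree (MvPolynomial.map (Int.castRingHom ℚ) (B ^ 2 - A * (4 * D))))
    (hAne : A ≠ 0) (hΔne : B ^ 2 - A * (4 * D) ≠ 0)
    (Ωr : Set ((Fin (n + 1) → ℝ) × (Fin 2 → ℝ)))
    (Ω : ∀ p : Nat.Primes, Set ((Fin (n + 1) → ℚ_[(p : ℕ)]) × (Fin 2 → ℚ_[(p : ℕ)])))
    (hΩr : IsOpen Ωr) (hΩ : ∀ p, IsOpen (Ω p)) (hfin : {p : Nat.Primes | Ω p ≠ Set.univ}.Finite)
    (hne : Ωr.Nonempty) (hnep : ∀ p, (Ω p).Nonempty) (Nl : ℕ → Finset ℤ)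
    (hNl : ∀ H a, a ∈ Nl H ↔ a ∈ Icc (-(H : ℤ)) H ∧ Squarefree a ∧ PtF A B D a Ωr ∧
      ∀ p : Nat.Primes, PtF A B D a (Ω p)) :
    ∃ c : ℝ, 0 < c ∧ ∃ H0 : ℕ, ∀ H : ℕ, H0 ≤ H → c * (H : ℝ) ≤ ((Nl H).card : ℝ) := by
  classical
  obtain ⟨x0, hx0r, hx0p, hA0, hB0, hF0⟩ := xapp2 hx n A B D hAne hΔne Ωr Ω hΩr hΩ hfin hne hnep
  obtain ⟨a0, s, ha0, hs0, has⟩ := sqf_part _ hF0
  have h4 : (4 : MvPolynomial (Fin (n + 1)) ℤ).IsHomogeneous 0 := by
    have := MvPolynomial.isHomogeneous_C (Fin (n + 1)) (4 : ℤ)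
    simpa using this
  obtain ⟨z0, hz0⟩ := he n α δ A B (4 * D) hA hB (by
    have := h4.mul hD
    rwa [zero_add] at this) hab hsq
  set z : ℕ := 100 + z0 + ∑ p ∈ hfin.toFinset, (p : ℕ) with hz
  obtain ⟨c, hc, H0, hH0⟩ := hd z 5 a0 (by omega) (by norm_num) ha0
  refine ⟨c, hc, H0, fun H hH => (hH0 H hH).trans ?_⟩
  have hsub : (Icc (-(H : ℤ)) H).filter (fun x : ℤ => Squarefree x ∧ 0 < x * a0 ∧
      ((primorial z ^ 5 : ℕ) : ℤ) ∣ x - a0) ⊆ Nl H := by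
    intro x hx
    rw [mem_filter] at hx
    obtain ⟨hxI, hxs, hpos, hdvd⟩ := hx
    rw [hNl]
    refine ⟨hxI, hxs, ?_, fun p => ?_⟩
    · rw [ptf_iff]
      have hpos' : (0 : ℝ) < ((x * a0 : ℤ) : ℝ) := by exact_mod_cast hpos
      refine ⟨_, hx0r, Real.sqrt ((x * a0 : ℤ) : ℝ) * s, mul_ne_zero
        (Real.sqrt_ne_zero'.2 hpos') (by exact_mod_cast hs0), ?_⟩
      rw [Fv_cast, has, mul_pow, Real.sq_sqrt hpos'.le]
      push_cast
      ring
    · by_cases hpz : (p : ℕ) ≤ z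
      · have hpd : (p : ℕ) ∣ primorial z := by
          unfold primorial
          apply Finset.dvd_prod_of_mem
          simp only [mem_filter, mem_range]
          exact ⟨by omega, p.2⟩
        have h4 : (((p : ℕ) ^ 4 : ℕ) : ℤ) ∣ x - a0 := by
          refine dvd_trans ?_ hdvd
          exact_mod_cast (pow_dvd_pow _ (by norm_num : 4 ≤ 5)).trans (pow_dvd_pow_of_dvd hpd 5)
        haveI : Fact ((p : ℕ)).Prime := ⟨p.2⟩
        obtain ⟨c, hc, hxc⟩ := Pool.Agent.W554.HB.near_sqf (p := (p : ℕ)) (a := x) (a1 := a0) ha0 (by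
          rw [eq_comm, ZMod.intCast_eq_intCast_iff_dvd_sub]
          exact_mod_cast h4)
        rw [ptf_iff]
        have ha0p : (a0 : ℚ_[(p : ℕ)]) ≠ 0 := by exact_mod_cast ha0.ne_zero
        refine ⟨_, hx0p p, (a0 : ℚ_[(p : ℕ)]) * c * s, mul_ne_zero (mul_ne_zero ha0p hc)
          (by exact_mod_cast hs0), ?_⟩
        rw [Fv_cast, has, hxc]
        push_cast
        ring
      · push Not at hpz
        have huniv : Ω p = Set.univ := by
          by_contra hcon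
          have h1 : p ∈ hfin.toFinset := by simpa using hcon
          have h2 : (p : ℕ) ≤ ∑ p ∈ hfin.toFinset, (p : ℕ) :=
            Finset.single_le_sum (f := fun p : Nat.Primes => (p : ℕ)) (fun _ _ => Nat.zero_le _) h1
          omega
        rw [huniv]
        haveI : Fact ((p : ℕ)).Prime := ⟨p.2⟩
        exact ptf_of_haspw A B D x hxs.ne_zero (hz0 (p : ℕ) (by omega) x hxs)
  exact_mod_cast Finset.card_le_card hsub

end Pool.Agent.W881.HB
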