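import Pool.Agent.W313.HB.Stm6
import Pool.Agent.W881.HB.FullC

/-! Project HB, part FULLW: weak approximation on the conics, and the theorem. -/

set_option autoImplicit false
set_option linter.all false

namespace Pool.Agent.W881.HB

open Finset Polynomial
open Pool.Agent.W313.BMX (Splits)
open Pool.Agent.W313.HB
open Pool.Agent.W236.HB (sqf_part aeval_cast)
open Pool.Agent.W681.HB (aevalD ne_of_sq)

theorem cont_YY {K : Type} [Field K] [TopologicalSpace K] [IsTopologicalRing K] (Δ y z : K) :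
    Continuous (fun q : Fin 3 → K => YY Δ y z q) := by
  unfold YY
  fun_prop

theorem cont_ZZ {K : Type} [Field K] [TopologicalSpace K] [IsTopologicalRing K] (Δ y z : K) :
    Continuous (fun q : Fin 3 → K => ZZ Δ y z q) := by
  unfold ZZ
  fun_prop

theorem cont_XX {K : Type} [Field K] [TopologicalSpace K] [IsTopologicalRing K] (Δ : K) :
    Continuous (fun q : Fin 3 → K => XX Δ q) := by
  unfold XX
  fun_prop

theorem cont_uv {K : Type} [Field K] [TopologicalSpace K] [IsTopologicalRing K]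
    (α β Δ y z : K) : Continuous (fun q : Fin 3 → K => uv α β Δ y z q) := by
  refine continuous_pi (fun i => ?_)
  fin_cases i
  · show Continuous (fun q : Fin 3 → K => (ZZ Δ y z q - β * YY Δ y z q) / (2 * α))
    have := ((cont_ZZ Δ y z).sub (continuous_const.mul (cont_YY Δ y z) : Continuous
      (fun q : Fin 3 → K => β * YY Δ y z q))).mul (continuous_const : Continuous
      (fun q : Fin 3 → K => (2 * α)⁻¹))
    simp only [div_eq_mul_inv]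
    exact this
  · exact cont_YY Δ y z

theorem uv_cast {K : Type} [Field K] [CharZero K] (α β Δ y z : ℚ) (q : Fin 3 → ℚ) :
    (fun i => ((uv α β Δ y z q i : ℚ) : K)) = uv (α : K) (β : K) (Δ : K) (y : K) (z : K)
      (fun i => (q i : K)) := by
  funext i
  fin_cases i
  · simp [uv, YY, ZZ]
  · simp [uv, YY]

theorem XX_cast {K : Type} [Field K] [CharZero K] (Δ : ℚ) (q : Fin 3 → ℚ) :
    ((XX Δ q : ℚ) : K) = XX (Δ : K) (fun i => (q i : K)) := by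
  simp [XX]

theorem wa (hx : S_XAPP) (n : ℕ) (A B D : MvPolynomial (Fin (n + 1)) ℤ) (a : ℤ) (ha : a ≠ 0)
    (Ωr : Set ((Fin (n + 1) → ℝ) × (Fin 2 → ℝ)))
    (Ω : ∀ p : Nat.Primes, Set ((Fin (n + 1) → ℚ_[(p : ℕ)]) × (Fin 2 → ℚ_[(p : ℕ)])))
    (hΩr : IsOpen Ωr) (hΩ : ∀ p, IsOpen (Ω p)) (hfin : {p : Nat.Primes | Ω p ≠ Set.univ}.Finite)
    (x : Fin (n + 1) → ℚ) (hA : MvPolynomial.aeval x A ≠ 0)
    (hΔ : MvPolynomial.aeval x (B ^ 2 - A * (4 * D)) ≠ 0)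
    (hs : Splits ((a : ℚ) * MvPolynomial.aeval x A)
      (((1 : ℤ) : ℚ) * MvPolynomial.aeval x (B ^ 2 - A * (4 * D))))
    (hr : ∃ y : Fin 2 → ℝ, ((fun i => (x i : ℝ)), y) ∈ Um A B D (a : ℝ) Ωr)
    (hp : ∀ p : Nat.Primes, Ω p ≠ Set.univ → ∃ y : Fin 2 → ℚ_[(p : ℕ)],
      ((fun i => (x i : ℚ_[(p : ℕ)])), y) ∈ Um A B D (a : ℚ_[(p : ℕ)]) (Ω p)) :
    PtF A B D a {x : (Fin (n + 1) → ℚ) × (Fin 2 → ℚ) |
      ((fun i => (x.1 i : ℝ)), (fun i => (x.2 i : ℝ))) ∈ Ωr ∧ ∀ p : Nat.Primes,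
      ((fun i => (x.1 i : ℚ_[(p : ℕ)])), (fun i => (x.2 i : ℚ_[(p : ℕ)]))) ∈ Ω p} := by
  classical
  rw [Int.cast_one, one_mul] at hs
  have haQ : (a : ℚ) ≠ 0 := by exact_mod_cast ha
  obtain ⟨α, hα⟩ : ∃ α : ℚ, α = MvPolynomial.aeval x A := ⟨_, rfl⟩
  obtain ⟨β, hβ⟩ : ∃ β : ℚ, β = MvPolynomial.aeval x B := ⟨_, rfl⟩
  obtain ⟨δ, hδ⟩ : ∃ δ : ℚ, δ = MvPolynomial.aeval x D := ⟨_, rfl⟩
  obtain ⟨Δ, hΔe⟩ : ∃ Δ : ℚ, Δ = MvPolynomial.aeval x (B ^ 2 - A * (4 * D)) := ⟨_, rfl⟩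
  rw [← hα] at hA hs
  rw [← hΔe] at hΔ hs
  have hD : Δ = β ^ 2 - α * (4 * δ) := by
    rw [hΔe, hα, hβ, hδ]
    simp only [map_sub, map_mul, map_pow, map_ofNat]
  obtain ⟨y0, z0, hyz⟩ := unit_pt (mul_ne_zero haQ hA) hΔ hs
  have key : ∀ (K : Type) [Field K] [CharZero K] (Ω' : Set ((Fin (n + 1) → K) × (Fin 2 → K))),
      (∃ y : Fin 2 → K, ((fun i => (x i : K)), y) ∈ Um A B D (a : K) Ω') →
      ∃ q : Fin 3 → K, ((fun i => (x i : K)), uv (α : K) (β : K) (Δ : K) (y0 : K) (z0 : K) q) ∈ Ω' ∧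
        XX (Δ : K) q ≠ 0 := by
    intro K _ _ Ω' h
    obtain ⟨y, hy, w, hw, h1⟩ := h
    have haK : (a : K) ≠ 0 := by exact_mod_cast ha
    have hαK : (α : K) ≠ 0 := by exact_mod_cast hA
    have hΔK : (Δ : K) ≠ 0 := by exact_mod_cast hΔ
    have hDK : (Δ : K) = (β : K) ^ 2 - (α : K) * (4 * (δ : K)) := by
      rw [hD]; push_cast; ring
    have hyzK : (z0 : K) ^ 2 - (Δ : K) * (y0 : K) ^ 2 = (a : K) * (α : K) := by
      have := congrArg (fun t : ℚ => (t : K)) hyz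
      push_cast at this
      exact this
    have h2 : w ^ 2 = (a : K) * ((α : K) * y 0 ^ 2 + (β : K) * (y 0 * y 1) + (δ : K) * y 1 ^ 2) := by
      rw [h1]
      unfold Fv
      simp only [aeval_cast]
      rw [hα, hβ, hδ]
    obtain ⟨q, hq, hX⟩ := surj haK hαK hΔK hDK hyzK y w hw h2
    exact ⟨q, by rw [hq]; exact hy, hX⟩
  set Vr : Set (Fin 3 → ℝ) := {q | ((fun i => (x i : ℝ)),
    uv (α : ℝ) (β : ℝ) (Δ : ℝ) (y0 : ℝ) (z0 : ℝ) q) ∈ Ωr ∧ XX (Δ : ℝ) q ≠ 0} with hVr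
  set V : ∀ p : Nat.Primes, Set (Fin 3 → ℚ_[(p : ℕ)]) := fun p => {q |
    ((fun i => (x i : ℚ_[(p : ℕ)])), uv (α : ℚ_[(p : ℕ)]) (β : ℚ_[(p : ℕ)]) (Δ : ℚ_[(p : ℕ)])
      (y0 : ℚ_[(p : ℕ)]) (z0 : ℚ_[(p : ℕ)]) q) ∈ Ω p} with hV
  have oVr : IsOpen Vr := (hΩr.preimage (continuous_const.prodMk (cont_uv _ _ _ _ _))).inter
    (isOpen_ne.preimage (cont_XX _))
  have oV : ∀ p, IsOpen (V p) := fun p =>
    (hΩ p).preimage (continuous_const.prodMk (cont_uv _ _ _ _ _))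
  obtain ⟨q, hq1, hq2, -⟩ := hx 2 1 one_ne_zero Vr V oVr oV
    (hfin.subset (fun p hp hcon => hp (by
      rw [hV]
      show {q | _ ∈ Ω p} = Set.univ
      rw [hcon]
      simp)))
    (key ℝ Ωr hr) (fun p => by
      by_cases hpu : Ω p = Set.univ
      · refine ⟨0, ?_⟩
        show _ ∈ Ω p
        rw [hpu]; exact Set.mem_univ _
      · obtain ⟨q, hq, -⟩ := key ℚ_[(p : ℕ)] (Ω p) (hp p hpu)
        exact ⟨q, hq⟩)
  obtain ⟨hq1a, hq1b⟩ := hq1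
  refine ⟨(x, uv α β Δ y0 z0 q), ⟨?_, fun p => ?_⟩, (a : ℚ) * XX Δ q / 2, ?_, ?_⟩
  · show ((fun i => (x i : ℝ)), (fun i => ((uv α β Δ y0 z0 q i : ℚ) : ℝ))) ∈ Ωr
    rw [uv_cast]
    exact hq1a
  · show ((fun i => (x i : ℚ_[(p : ℕ)])), (fun i => ((uv α β Δ y0 z0 q i : ℚ) : ℚ_[(p : ℕ)]))) ∈ Ω p
    rw [uv_cast]
    exact hq2 p
  · refine div_ne_zero (mul_ne_zero haQ ?_) two_ne_zero
    intro h0
    apply hq1b
    rw [← XX_cast, h0, Rat.cast_zero]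
  · have := form_id haQ hA hD hyz q
    rw [this, hα, hβ, hδ]

end Pool.Agent.W881.HB
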