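import Pool.Agent.W313.HB.Stm6
import Pool.Agent.W881.HB.FullD

/-! Project HB, part FULLW: the theorem with full weak approximation. -/

set_option autoImplicit false
set_option linter.all false

namespace Pool.Agent.W881.HB

open Finset Polynomial
open Pool.Agent.W313.BMX (Splits)
open Pool.Agent.W313.HB
open Pool.Agent.W236.HB (sqf_part aeval_cast)
open Pool.Agent.W681.HB (aevalD ne_of_sq)

/-- The rational points of given sets. -/
def ratS {n : ℕ} (Ωr : Set ((Fin (n + 1) → ℝ) × (Fin 2 → ℝ)))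
    (Ω : ∀ p : Nat.Primes, Set ((Fin (n + 1) → ℚ_[(p : ℕ)]) × (Fin 2 → ℚ_[(p : ℕ)]))) :
    Set ((Fin (n + 1) → ℚ) × (Fin 2 → ℚ)) :=
  {x : (Fin (n + 1) → ℚ) × (Fin 2 → ℚ) |
    ((fun i => (x.1 i : ℝ)), (fun i => (x.2 i : ℝ))) ∈ Ωr ∧ ∀ p : Nat.Primes,
    ((fun i => (x.1 i : ℚ_[(p : ℕ)])), (fun i => (x.2 i : ℚ_[(p : ℕ)]))) ∈ Ω p}

open Classical in
theorem posb (ht : S_T1G) (hx : S_XAPP) (n α δ : ℕ)
    (A B D : MvPolynomial (Fin (n + 1)) ℤ)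
    (hA : A.IsHomogeneous (2 * α)) (hB : B.IsHomogeneous (α + δ)) (hD : D.IsHomogeneous (2 * δ))
    (hab : 1 ≤ α + δ)
    (hsq : Squarefree (MvPolynomial.map (Int.castRingHom ℚ) (B ^ 2 - A * (4 * D))))
    (hAne : A ≠ 0) (hΔne : B ^ 2 - A * (4 * D) ≠ 0)
    (Ωr : Set ((Fin (n + 1) → ℝ) × (Fin 2 → ℝ)))
    (Ω : ∀ p : Nat.Primes, Set ((Fin (n + 1) → ℚ_[(p : ℕ)]) × (Fin 2 → ℚ_[(p : ℕ)])))
    (hΩr : IsOpen Ωr) (hΩ : ∀ p, IsOpen (Ω p)) (hfin : {p : Nat.Primes | Ω p ≠ Set.univ}.Finite)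
    (ε : ℝ) (hε : 0 < ε) : ∃ H0 : ℕ, ∀ H : ℕ, H0 ≤ H →
    (((Icc 1 H).filter (fun a : ℕ => Squarefree a ∧ PtF A B D (a : ℤ) Ωr ∧
      (∀ p : Nat.Primes, PtF A B D (a : ℤ) (Ω p)) ∧
      ¬ PtF A B D (a : ℤ) (ratS Ωr Ω))).card : ℝ) ≤ ε * H := by
  have h4 : (4 : MvPolynomial (Fin (n + 1)) ℤ).IsHomogeneous 0 := by
    have := MvPolynomial.isHomogeneous_C (Fin (n + 1)) (4 : ℤ)
    simpa using this
  have hD4 : (4 * D).IsHomogeneous (2 * δ) := by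
    have := h4.mul hD
    rwa [zero_add] at this
  set S : Finset Nat.Primes := hfin.toFinset with hS
  set M : ℕ := ∏ p ∈ S, (p : ℕ) ^ 4 with hM
  have hMpos : 0 < M := Finset.prod_pos (fun p _ => pow_pos p.2.pos 4)
  have hrep : ∀ ρ : ℕ, ∃ r : ℤ, (∃ r' : ℤ, Squarefree r' ∧ (M : ℤ) ∣ r' - ρ) →
      Squarefree r ∧ (M : ℤ) ∣ r - ρ := by
    intro ρ
    by_cases h : ∃ r' : ℤ, Squarefree r' ∧ (M : ℤ) ∣ r' - ρ
    · obtain ⟨r, hr⟩ := h
      exact ⟨r, fun _ => hr⟩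
    · exact ⟨0, fun h' => absurd h' h⟩
  choose rep hrep' using hrep
  set Ω' : ℕ → ∀ p : Nat.Primes, Set (Fin (n + 1) → ℚ_[(p : ℕ)]) := fun ρ p =>
    if p ∈ S then Om A B D (rep ρ : ℚ_[(p : ℕ)]) (Ω p) else Set.univ with hΩ'
  have oΩ' : ∀ ρ p, IsOpen (Ω' ρ p) := by
    intro ρ p
    rw [hΩ']
    show IsOpen (if p ∈ S then Om A B D (rep ρ : ℚ_[(p : ℕ)]) (Ω p) else Set.univ)
    split_ifs
    · exact isOpen_Om A B D _ _ (hΩ p)
    · exact isOpen_univ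
  have fΩ' : ∀ ρ, {p : Nat.Primes | Ω' ρ p ≠ Set.univ}.Finite := by
    intro ρ
    apply S.finite_toSet.subset
    intro p hp
    by_contra hcon
    apply hp
    show (if p ∈ S then Om A B D (rep ρ : ℚ_[(p : ℕ)]) (Ω p) else Set.univ) = Set.univ
    rw [if_neg (by exact_mod_cast hcon)]
  have hεM : 0 < ε / M := div_pos hε (by exact_mod_cast hMpos)
  choose H0 hH0 using fun ρ : ℕ => ht n α δ A B (4 * D) hA hB hD4 hab hsq (Om A B D (1 : ℝ) Ωr)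
    (Ω' ρ) (isOpen_Om A B D _ _ hΩr) (oΩ' ρ) (fΩ' ρ) (ε / M) hεM
  refine ⟨∑ ρ ∈ range M, H0 ρ, fun H hH => ?_⟩
  have hsub : ((Icc 1 H).filter (fun a : ℕ => Squarefree a ∧ PtF A B D (a : ℤ) Ωr ∧
      (∀ p : Nat.Primes, PtF A B D (a : ℤ) (Ω p)) ∧
      ¬ PtF A B D (a : ℤ) (ratS Ωr Ω))) ⊆ (range M).biUnion (fun ρ =>
      ((Icc 1 H).filter (fun a : ℕ => Squarefree a ∧
      HasPW A (B ^ 2 - A * (4 * D)) (a : ℤ) 1 (Om A B D (1 : ℝ) Ωr) ∧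
      (∀ p : Nat.Primes, HasPW A (B ^ 2 - A * (4 * D)) (a : ℤ) 1 (Ω' ρ p)) ∧
      ¬ GlobW A (B ^ 2 - A * (4 * D)) (a : ℤ) 1 (Om A B D (1 : ℝ) Ωr) (Ω' ρ)))) := by
    intro a ha
    rw [mem_filter, mem_Icc] at ha
    obtain ⟨⟨ha1, haH⟩, hsf, har, hap, hng⟩ := ha
    have hsfZ : Squarefree (a : ℤ) := Int.squarefree_natCast.2 hsf
    have haZ : (a : ℤ) ≠ 0 := by omega
    rw [mem_biUnion]
    refine ⟨a % M, mem_range.2 (Nat.mod_lt _ hMpos), ?_⟩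
    have hdv : (M : ℤ) ∣ (a : ℤ) - ((a % M : ℕ) : ℤ) := by
      rw [Int.natCast_mod]
      exact Int.dvd_self_sub_emod
    obtain ⟨hrs, hrd⟩ := hrep' (a % M) ⟨a, hsfZ, hdv⟩
    set r : ℤ := rep (a % M) with hr
    have hdvr : (M : ℤ) ∣ (a : ℤ) - r := by
      have := dvd_sub hdv hrd
      have e : (a : ℤ) - ((a % M : ℕ) : ℤ) - (r - ((a % M : ℕ) : ℤ)) = (a : ℤ) - r := by ring
      rwa [e] at this
    have hOr : Om A B D (((a : ℤ)) : ℝ) Ωr = Om A B D (1 : ℝ) Ωr := by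
      have hapos : (0 : ℝ) < (((a : ℤ)) : ℝ) := by
        have : (0 : ℤ) < (a : ℤ) := by omega
        exact_mod_cast this
      refine Om_congr A B D (c := Real.sqrt (((a : ℤ)) : ℝ)) (Real.sqrt_ne_zero'.2 hapos) ?_ Ωr
      rw [Real.sq_sqrt hapos.le, one_mul]
    have hOp : ∀ p : Nat.Primes, p ∈ S → Om A B D (((a : ℤ)) : ℚ_[(p : ℕ)]) (Ω p) =
        Om A B D (r : ℚ_[(p : ℕ)]) (Ω p) := by
      intro p hp
      have h5 : (((p : ℕ) ^ 4 : ℕ) : ℤ) ∣ (a : ℤ) - r := by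
        refine dvd_trans ?_ hdvr
        exact_mod_cast Finset.dvd_prod_of_mem (fun p : Nat.Primes => (p : ℕ) ^ 4) hp
      haveI : Fact ((p : ℕ)).Prime := ⟨p.2⟩
      obtain ⟨c, hc, hxc⟩ := Pool.Agent.W554.HB.near_sqf (p := (p : ℕ)) (a := (a : ℤ)) (a1 := r)
        hrs (by
          rw [eq_comm, ZMod.intCast_eq_intCast_iff_dvd_sub]
          exact_mod_cast h5)
      exact Om_congr A B D hc hxc (Ω p)
    rw [mem_filter, mem_Icc]
    refine ⟨⟨ha1, haH⟩, hsf, ?_, fun p => ?_, ?_⟩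
    · obtain ⟨x, hx⟩ := perturb A B D hAne hΔne _ Ωr hΩr ((ptf_iff A B D _ _).1 har)
      exact ⟨x, by rw [← hOr]; exact hx, hx.1, hx.2.1, haspw_of_Om A B D (a : ℤ) haZ Ωr x hx⟩
    · obtain ⟨x, hx⟩ := perturb A B D hAne hΔne _ (Ω p) (hΩ p) ((ptf_iff A B D _ _).1 (hap p))
      refine ⟨x, ?_, hx.1, hx.2.1, haspw_of_Om A B D (a : ℤ) haZ (Ω p) x hx⟩
      show x ∈ (if p ∈ S then Om A B D (r : ℚ_[(p : ℕ)]) (Ω p) else Set.univ)
      split_ifs with hpS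
      · rw [← hOp p hpS]; exact hx
      · exact Set.mem_univ _
    · rintro ⟨x, hxr, hxp, hxA, hxD, hxs⟩
      apply hng
      refine wa hx n A B D (a : ℤ) haZ Ωr Ω hΩr hΩ hfin x hxA hxD hxs ?_ ?_
      · rw [← hOr] at hxr
        exact hxr.2.2
      · intro p hp
        have hpS : p ∈ S := by
          rw [hS]
          exact hfin.mem_toFinset.2 hp
        have h6 : (fun i => (x i : ℚ_[(p : ℕ)])) ∈
            (if p ∈ S then Om A B D (r : ℚ_[(p : ℕ)]) (Ω p) else Set.univ) := hxp p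
        rw [if_pos hpS, ← hOp p hpS] at h6
        exact h6.2.2
  have h7 := (Finset.card_le_card hsub).trans Finset.card_biUnion_le
  have h8 : (((Icc 1 H).filter (fun a : ℕ => Squarefree a ∧ PtF A B D (a : ℤ) Ωr ∧
      (∀ p : Nat.Primes, PtF A B D (a : ℤ) (Ω p)) ∧
      ¬ PtF A B D (a : ℤ) (ratS Ωr Ω))).card : ℝ) ≤ _ := Nat.cast_le.2 h7
  refine h8.trans ?_
  rw [Nat.cast_sum]
  have h9 : ∀ ρ ∈ range M, ((((Icc 1 H).filter (fun a : ℕ => Squarefree a ∧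
      HasPW A (B ^ 2 - A * (4 * D)) (a : ℤ) 1 (Om A B D (1 : ℝ) Ωr) ∧
      (∀ p : Nat.Primes, HasPW A (B ^ 2 - A * (4 * D)) (a : ℤ) 1 (Ω' ρ p)) ∧
      ¬ GlobW A (B ^ 2 - A * (4 * D)) (a : ℤ) 1 (Om A B D (1 : ℝ) Ωr) (Ω' ρ))).card : ℕ) : ℝ) ≤
      ε / M * H := by
    intro ρ hρ
    refine hH0 ρ H (le_trans ?_ hH)
    exact Finset.single_le_sum (f := H0) (fun _ _ => Nat.zero_le _) hρ
  refine (Finset.sum_le_sum h9).trans ?_
  rw [Finset.sum_const, card_range, nsmul_eq_mul]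
  have : (M : ℝ) ≠ 0 := by exact_mod_cast hMpos.ne'
  apply le_of_eq
  field_simp

theorem ptf_neg {n : ℕ} {K : Type} [Field K] (A B D : MvPolynomial (Fin (n + 1)) ℤ) (a : ℤ)
    (Ω : Set ((Fin (n + 1) → K) × (Fin 2 → K))) :
    PtF (-A) (-B) (-D) (-a) Ω ↔ PtF A B D a Ω := by
  rw [ptf_iff, ptf_iff]
  have e : Um (-A) (-B) (-D) (((-a : ℤ)) : K) Ω = Um A B D (a : K) Ω := by
    have e1 : ∀ y : (Fin (n + 1) → K) × (Fin 2 → K), (((-a : ℤ)) : K) * Fv (-A) (-B) (-D) y =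
        (a : K) * Fv A B D y := by
      intro y
      unfold Fv
      simp only [map_neg]
      push_cast
      ring
    unfold Um
    simp only [e1]
  rw [e]

theorem fullw_ (ht : S_T1G) (hd : S_DONE) (he : S_ELSBG) (hx : S_XAPP) : S_RATIOF := by
  classical
  intro n α δ A B D hA hB hD hab hsq Ωr Ω hΩr hΩ hfin hne hnep Nl Ng hNl hNg
  have hAne : A ≠ 0 := ne_of_sq A B D hB hab hsq
  have e : B ^ 2 - A * (4 * D) = B ^ 2 - 4 * A * D := by ring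
  have hΔne : B ^ 2 - A * (4 * D) ≠ 0 := by
    intro h0
    rw [← e, h0, map_zero] at hsq
    exact hsq.ne_zero rfl
  rw [← e] at hsq
  have e' : (-B) ^ 2 - (-A) * (4 * (-D)) = B ^ 2 - A * (4 * D) := by ring
  obtain ⟨c, hc, H0, hH0⟩ := densityF hd he hx n α δ A B D hA hB hD hab hsq hAne hΔne Ωr Ω hΩr hΩ
    hfin hne hnep Nl hNl
  refine ⟨⟨c, hc, H0, hH0⟩, ?_⟩
  rw [Metric.tendsto_atTop]
  intro ε hε
  obtain ⟨N1, hN1⟩ := posb ht hx n α δ A B D hA hB hD hab hsq hAne hΔne Ωr Ω hΩr hΩ hfin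
    (c * ε / 4) (by positivity)
  obtain ⟨N2, hN2⟩ := posb ht hx n α δ (-A) (-B) (-D) hA.neg hB.neg hD.neg hab
    (by rw [e']; exact hsq) (neg_ne_zero.2 hAne) (by rw [e']; exact hΔne) Ωr Ω hΩr
    hΩ hfin (c * ε / 4) (by positivity)
  refine ⟨H0 + N1 + N2 + 1, fun H hH => ?_⟩
  have h0 := hH0 H (by omega)
  have h1 := hN1 H (by omega)
  have h2 := hN2 H (by omega)
  have hHpos : (0 : ℝ) < H := by exact_mod_cast (by omega : 0 < H)
  have hsub : Ng H ⊆ Nl H := by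
    intro a ha
    rw [hNg] at ha
    rw [hNl]
    exact ⟨ha.1, ha.2.1, ptf_cast A B D a _ _ (fun x hx => hx.1) ha.2.2,
      fun p => ptf_cast A B D a _ _ (fun x hx => hx.2 p) ha.2.2⟩
  have hbad : (Nl H) \ (Ng H) ⊆
      ((Icc 1 H).filter (fun a : ℕ => Squarefree a ∧ PtF A B D (a : ℤ) Ωr ∧
      (∀ p : Nat.Primes, PtF A B D (a : ℤ) (Ω p)) ∧
      ¬ PtF A B D (a : ℤ) (ratS Ωr Ω))).image (fun a : ℕ => (a : ℤ)) ∪
      ((Icc 1 H).filter (fun a : ℕ => Squarefree a ∧ PtF (-A) (-B) (-D) (a : ℤ) Ωr ∧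
      (∀ p : Nat.Primes, PtF (-A) (-B) (-D) (a : ℤ) (Ω p)) ∧
      ¬ PtF (-A) (-B) (-D) (a : ℤ) (ratS Ωr Ω))).image
          (fun a : ℕ => -(a : ℤ)) := by
    intro a ha
    rw [mem_sdiff, hNl, hNg, mem_Icc] at ha
    obtain ⟨⟨haI, has, har, hap⟩, hng⟩ := ha
    have hng' : ¬ PtF A B D a (ratS Ωr Ω) := fun hg => hng ⟨haI, has, hg⟩
    have hane : a ≠ 0 := has.ne_zero
    rw [mem_union, mem_image, mem_image]
    rcases lt_or_gt_of_ne hane with hneg | hpos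
    · right
      refine ⟨a.natAbs, ?_, by omega⟩
      have hcast : ((a.natAbs : ℕ) : ℤ) = -a := by omega
      rw [mem_filter, mem_Icc, hcast]
      refine ⟨by omega, Int.squarefree_natAbs.2 has, ?_, fun p => ?_, fun hg => ?_⟩
      · exact (ptf_neg A B D a _).2 har
      · exact (ptf_neg A B D a _).2 (hap p)
      · exact hng' ((ptf_neg A B D a _).1 hg)
    · left
      refine ⟨a.natAbs, ?_, by omega⟩
      have hcast : ((a.natAbs : ℕ) : ℤ) = a := by omega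
      rw [mem_filter, mem_Icc, hcast]
      exact ⟨by omega, Int.squarefree_natAbs.2 has, har, hap, hng'⟩
  have hcard : (((Nl H) \ (Ng H)).card : ℝ) ≤ c * ε / 4 * H + c * ε / 4 * H := by
    have h3 := (Finset.card_le_card hbad).trans (Finset.card_union_le _ _)
    have h4 := h3.trans (Nat.add_le_add Finset.card_image_le Finset.card_image_le)
    have h5 : (((Nl H) \ (Ng H)).card : ℝ) ≤ _ := Nat.cast_le.2 h4
    rw [Nat.cast_add] at h5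
    exact h5.trans (add_le_add h1 h2)
  have hL : (0 : ℝ) < ((Nl H).card : ℝ) := lt_of_lt_of_le (by positivity) h0
  have hdiff : (((Nl H) \ (Ng H)).card : ℝ) = ((Nl H).card : ℝ) - ((Ng H).card : ℝ) := by
    rw [Finset.cast_card_sdiff hsub]
  rw [Real.dist_eq, abs_sub_comm, abs_of_nonneg]
  · have h6 : 1 - ((Ng H).card : ℝ) / ((Nl H).card : ℝ) =
      (((Nl H) \ (Ng H)).card : ℝ) / ((Nl H).card : ℝ) := by
      rw [hdiff]; field_simp
    rw [h6, div_lt_iff₀ hL]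
    have h7 : c * ε / 4 * H + c * ε / 4 * H < ε * (c * H) := by
      have : 0 < c * ε * H := by positivity
      nlinarith
    calc _ ≤ _ := hcard
      _ < ε * (c * H) := h7
      _ ≤ _ := mul_le_mul_of_nonneg_left h0 hε.le
  · rw [sub_nonneg, div_le_one hL]
    exact_mod_cast Finset.card_le_card hsub

end Pool.Agent.W881.HB
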